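import Pool.Agent.H5.OR.Targets

/-!
# Row KC: the groups `⟨a, t | a^p = t^q⟩` are in the class `KK` (helper63)
-/

set_option autoImplicit false

namespace Pool.Agent.H63.OR

open ORg Monoid

section free

variable {K : Type} [Group K]

private def wl (g h : K) : ℕ → List (Σ _ : Bool, K)
  | 0 => []
  | m + 1 => ⟨false, g⟩ :: ⟨true, h⟩ :: wl g h m

private theorem wl_ne {g h : K} (hg : g ≠ 1) (hh : h ≠ 1) (m : ℕ) :
    ∀ l ∈ wl g h m, Sigma.snd l ≠ 1 := by
  induction m with
  | zero =>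
    intro l hl
    exact absurd hl (List.not_mem_nil)
  | succ m ih =>
    intro l hl
    rcases List.mem_cons.mp hl with rfl | hl
    · exact hg
    · rcases List.mem_cons.mp hl with rfl | hl
      · exact hh
      · exact ih l hl

private theorem wl_chain (g h : K) (m : ℕ) :
    (wl g h m).IsChain (fun l l' => Sigma.fst l ≠ Sigma.fst l') ∧
    ((⟨true, h⟩ : Σ _ : Bool, K) :: wl g h m).IsChain
      (fun l l' => Sigma.fst l ≠ Sigma.fst l') := by
  induction m with
  | zero => exact ⟨List.isChain_nil, List.isChain_singleton _⟩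
  | succ m ih =>
    have h1 : (wl g h (m + 1)).IsChain (fun l l' => Sigma.fst l ≠ Sigma.fst l') := by
      change ((⟨false, g⟩ : Σ _ : Bool, K) :: ⟨true, h⟩ :: wl g h m).IsChain _
      exact List.isChain_cons_cons.mpr ⟨by simp, ih.2⟩
    refine ⟨h1, ?_⟩
    change ((⟨true, h⟩ : Σ _ : Bool, K) :: ⟨false, g⟩ :: ⟨true, h⟩ :: wl g h m).IsChain _
    exact List.isChain_cons_cons.mpr ⟨by simp, h1⟩

private theorem wl_prod (g h : K) (m : ℕ) :
    ((wl g h m).map fun l => (CoprodI.of (M := fun _ : Bool => K) (i := l.1) l.2)).prod =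
      (CoprodI.of (M := fun _ : Bool => K) (i := false) g *
        CoprodI.of (M := fun _ : Bool => K) (i := true) h) ^ m := by
  induction m with
  | zero => rfl
  | succ m ih =>
    rw [pow_succ', ← ih, mul_assoc]
    rfl

private theorem inf_free {g h : K} (hg : g ≠ 1) (hh : h ≠ 1) (m : ℕ) (hm : m ≠ 0) :
    (CoprodI.of (M := fun _ : Bool => K) (i := false) g *
      CoprodI.of (M := fun _ : Bool => K) (i := true) h) ^ m ≠ 1 := by
  classical
  intro he
  let w : CoprodI.Word (fun _ : Bool => K) := ⟨wl g h m, wl_ne hg hh m, (wl_chain g h m).1⟩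
  have h1 : w.prod = (CoprodI.Word.empty : CoprodI.Word (fun _ : Bool => K)).prod := by
    rw [CoprodI.Word.prod_empty, ← he, ← wl_prod]
    rfl
  have h2 : w = CoprodI.Word.empty := CoprodI.Word.equiv.symm.injective h1
  have h3 : wl g h m = [] := congrArg CoprodI.Word.toList h2
  cases m with
  | zero => exact hm rfl
  | succ m => exact List.cons_ne_nil _ _ h3

private theorem inf_free' {g h : K} (hg : g ≠ 1) (hh : h ≠ 1) (m : ℤ) (hm : m ≠ 0) :
    (CoprodI.of (M := fun _ : Bool => K) (i := false) g *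
      CoprodI.of (M := fun _ : Bool => K) (i := true) h) ^ m ≠ 1 := by
  intro he
  rcases Int.natAbs_eq m with h1 | h1
  · rw [h1, zpow_natCast] at he
    exact inf_free hg hh m.natAbs (Int.natAbs_ne_zero.mpr hm) he
  · rw [h1, zpow_neg, zpow_natCast, inv_eq_one] at he
    exact inf_free hg hh m.natAbs (Int.natAbs_ne_zero.mpr hm) he

end free

private theorem rel (p q : ℤ) : tkA p q ^ p = tkT p q ^ q := by
  have h1 : (PresentedGroup.mk ({relC (FreeGroup.of ()) p q} : Set (FreeGroup (Option Unit))))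
      (relC (FreeGroup.of ()) p q) = 1 :=
    (QuotientGroup.eq_one_iff _).mpr (Subgroup.subset_normalClosure (Set.mem_singleton _))
  unfold relC at h1
  rw [map_mul, map_inv, map_zpow, map_zpow, mul_inv_eq_one, FreeGroup.map.of] at h1
  exact h1

/-- a homomorphism of `TK p q` -/
private theorem hom (p q : ℤ) {H : Type} [Group H] (x y : H) (h : x ^ p = y ^ q) :
    ∃ f : TK p q →* H, f (tkA p q) = x ∧ f (tkT p q) = y := by
  have h1 : ∀ r ∈ ({relC (FreeGroup.of ()) p q} : Set (FreeGroup (Option Unit))),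
      FreeGroup.lift (fun o : Option Unit => Option.elim o y fun _ => x) r = 1 := by
    intro r hr
    rw [Set.mem_singleton_iff.mp hr]
    unfold relC
    rw [map_mul, map_inv, map_zpow, map_zpow, FreeGroup.map.of, FreeGroup.lift_apply_of,
      FreeGroup.lift_apply_of, mul_inv_eq_one]
    exact h
  refine ⟨PresentedGroup.toGroup h1, ?_, ?_⟩
  · exact PresentedGroup.toGroup.of h1
  · exact PresentedGroup.toGroup.of h1

private theorem central (p q : ℤ) (g : TK p q) : g * tkA p q ^ p = tkA p q ^ p * g := by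
  have h1 : g ∈ Subgroup.closure (Set.range
      (PresentedGroup.of : Option Unit → PresentedGroup {relC (FreeGroup.of ()) p q})) := by
    rw [PresentedGroup.closure_range_of]
    exact Subgroup.mem_top g
  refine Subgroup.closure_induction (p := fun g _ => g * tkA p q ^ p = tkA p q ^ p * g)
    ?_ ?_ ?_ ?_ h1
  · rintro _ ⟨o, rfl⟩
    rcases o with _ | o
    · change tkT p q * tkA p q ^ p = tkA p q ^ p * tkT p q
      rw [rel, ← zpow_one_add, ← zpow_add_one, add_comm]
    · change tkA p q * tkA p q ^ p = tkA p q ^ p * tkA p q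
      rw [← zpow_one_add, ← zpow_add_one, add_comm]
  · rw [one_mul, mul_one]
  · intro x y _ _ hx hy
    rw [mul_assoc, hy, ← mul_assoc, hx, mul_assoc]
  · intro x _ hx
    rw [inv_mul_eq_iff_eq_mul, ← mul_assoc, hx, mul_assoc, mul_inv_cancel, mul_one]

private theorem two (p q : ℤ) (hp : 2 ≤ |p|) (hq : 2 ≤ |q|) :
    ∃ (K : Type) (_ : Group K) (g h : K), g ≠ 1 ∧ h ≠ 1 ∧ g ^ p = 1 ∧ h ^ q = 1 := by
  have hP : 1 < p.natAbs := by
    have : (2 : ℤ) ≤ (p.natAbs : ℤ) := by rw [Int.natCast_natAbs]; exact hp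
    omega
  have hQ : 1 < q.natAbs := by
    have : (2 : ℤ) ≤ (q.natAbs : ℤ) := by rw [Int.natCast_natAbs]; exact hq
    omega
  haveI : Fact (1 < p.natAbs) := ⟨hP⟩
  haveI : Fact (1 < q.natAbs) := ⟨hQ⟩
  refine ⟨Multiplicative (ZMod p.natAbs × ZMod q.natAbs), inferInstance,
    Multiplicative.ofAdd ((1, 0) : ZMod p.natAbs × ZMod q.natAbs),
    Multiplicative.ofAdd ((0, 1) : ZMod p.natAbs × ZMod q.natAbs), ?_, ?_, ?_, ?_⟩
  · intro he
    have h1 : ((1, 0) : ZMod p.natAbs × ZMod q.natAbs) = 0 := ofAdd_eq_one.mp he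
    exact one_ne_zero (congrArg Prod.fst h1)
  · intro he
    have h1 : ((0, 1) : ZMod p.natAbs × ZMod q.natAbs) = 0 := ofAdd_eq_one.mp he
    exact one_ne_zero (congrArg Prod.snd h1)
  · rw [← ofAdd_zsmul, ofAdd_eq_one]
    ext
    · simpa using (ZMod.intCast_zmod_eq_zero_iff_dvd p p.natAbs).mpr (Int.natAbs_dvd.mpr dvd_rfl)
    · simp
  · rw [← ofAdd_zsmul, ofAdd_eq_one]
    ext
    · simp
    · simpa using (ZMod.intCast_zmod_eq_zero_iff_dvd q q.natAbs).mpr (Int.natAbs_dvd.mpr dvd_rfl)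

theorem pf_KC : T_KC := by
  intro p q hp hq
  have hp0 : p ≠ 0 := by
    rintro rfl
    norm_num at hp
  have hq0 : q ≠ 0 := by
    rintro rfl
    norm_num at hq
  obtain ⟨f, hfa, _⟩ := hom p q (Multiplicative.ofAdd q : Multiplicative ℤ)
    (Multiplicative.ofAdd p) (by
      rw [← ofAdd_zsmul, ← ofAdd_zsmul, smul_eq_mul, smul_eq_mul, mul_comm])
  have hinf : Inf (tkA p q) := by
    intro n hn he
    have h1 : f (tkA p q ^ n) = 1 := by rw [he, map_one]
    rw [map_zpow, hfa, ← ofAdd_zsmul, smul_eq_mul, ofAdd_eq_one] at h1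
    exact mul_ne_zero hn hq0 h1
  refine ⟨⟨tkA p q ^ p, tkA p q * tkT p q, ?_, ?_, ?_⟩, hinf⟩
  · intro n hn he
    rw [← zpow_mul] at he
    exact hinf (p * n) (mul_ne_zero hp0 hn) he
  · intro g
    refine ⟨1, 1, one_ne_zero, one_ne_zero, ?_⟩
    rw [zpow_one, central, mul_assoc, mul_inv_cancel, mul_one]
  · intro m hm hmem
    -- the free product of two cyclic groups
    obtain ⟨K, _, g, h, hg1, hh1, hgp, hhq⟩ := two p q hp hq
    obtain ⟨F, hFa, hFt⟩ := hom p q (CoprodI.of (M := fun _ : Bool => K) (i := false) g)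
      (CoprodI.of (M := fun _ : Bool => K) (i := true) h) (by
        rw [← map_zpow, ← map_zpow, hgp, hhq, map_one, map_one])
    obtain ⟨j, hj⟩ := Subgroup.mem_zpowers_iff.mp hmem
    have h1 : F ((tkA p q ^ p) ^ j) = 1 := by
      rw [map_zpow, map_zpow, hFa, ← map_zpow, hgp, map_one, one_zpow]
    rw [hj, map_zpow, map_mul, hFa, hFt] at h1
    exact inf_free' hg1 hh1 m hm h1

end Pool.Agent.H63.OR
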