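import Pool.Agent.H5.OR.All
import Pool.Agent.H5.OR.Targets3

/-!
# Isomorphism problem for one-relator groups (MP_e1fd52_al): row WU
Uniqueness of the free factor of a word.
-/

set_option autoImplicit false

open scoped Classical

namespace Pool.Agent.H63.OR.WU

open ORg

theorem fl_inj {X N : Type} : Function.Injective (fl : FreeGroup X →* FreeGroup (X ⊕ N)) :=
  FreeGroup.map_injective Sum.inl_injective

theorem root_ne {X : Type} {w : FreeGroup X} (h : Root w) : w ≠ 1 := by
  intro h1
  have := h 1 0 (by rw [h1]; simp)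
  omega

/-- one direction -/
theorem dir {X X' N N' : Type} [Finite X] [Nontrivial X] (w : FreeGroup X) (w' : FreeGroup X')
    (e : ℤ) (α : FreeGroup (X ⊕ N) →* FreeGroup (X' ⊕ N')) (hα : Function.Injective α)
    (hr : Root w) (hw : Wh w) (h : α (fl w) = fl w' ^ e) :
    ∀ y : FreeGroup X, ∃ z : FreeGroup X', fl z = α (fl y) := by
  obtain ⟨S, r, b, hA, hfix⟩ := All.AP X' N'
  let f : FreeGroup X →* FreeGroup (X' ⊕ N') := α.comp fl
  have hf : Function.Injective f := hα.comp fl_inj
  have hwr : f w • r = r := by
    rw [hA.stA]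
    refine ⟨w' ^ e, ?_⟩
    have : f w = fl w' ^ e := h
    rw [this, map_zpow]
  obtain ⟨v, hv⟩ := All.LS X w (S.comap f) hr hw ⟨r, hwr⟩ (by
    intro a c hac
    refine ⟨1, fun g hga hgc => ?_⟩
    have hne : a ≠ c := fun hh => by
      subst hh
      exact (S.comap f).T.loopless.irrefl _ hac
    have h1 : f g = 1 := by
      by_contra h2
      exact hne (hfix (f g) h2 a c hga hgc)
    have h3 : g = 1 := hf (by rw [h1, map_one])
    subst h3
    simp only [mul_one, inv_one]
    exact Subgroup.one_mem _)
  have hv' : ∀ g : FreeGroup X, f g • (show S.V from v) = (show S.V from v) := hv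
  have hw1 : f w ≠ 1 := by
    intro h1
    exact root_ne hr (hf (by rw [h1, map_one]))
  have hvr : (show S.V from v) = r := hfix (f w) hw1 _ _ (hv' w) hwr
  intro y
  have h1 : f y • r = r := by
    have := hv' y
    rw [hvr] at this
    exact this
  rw [hA.stA] at h1
  obtain ⟨z, hz⟩ := h1
  exact ⟨z, hz⟩

theorem pf_WU : T_WU := by
  intro X X' N N' _ _ _ _ w w' e α hr hw hr' hw' he h
  have h1 := dir w w' e α.toMonoidHom α.injective hr hw h
  have hsym : α.symm (fl w') = fl w ^ e := by
    have : fl w = α.symm (fl w') ^ e := by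
      rw [← map_zpow, ← h, MulEquiv.symm_apply_apply]
    rcases he with he | he
    · subst he
      rw [zpow_one] at this ⊢
      exact this.symm
    · subst he
      rw [this, ← zpow_mul]
      simp
  have h2 := dir w' w e α.symm.toMonoidHom α.symm.injective hr' hw' hsym
  choose F hF using h1
  choose G hG using h2
  have hF' : ∀ y, fl (F y) = α (fl y) := hF
  have hG' : ∀ y, fl (G y) = α.symm (fl y) := hG
  have hfX : Function.Injective (fl : FreeGroup X →* FreeGroup (X ⊕ N)) := fl_inj
  have hfX' : Function.Injective (fl : FreeGroup X' →* FreeGroup (X' ⊕ N')) := fl_inj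
  refine ⟨{ toFun := F, invFun := G, left_inv := ?_, right_inv := ?_, map_mul' := ?_ }, ?_⟩
  · intro y
    apply hfX
    rw [hG', hF', MulEquiv.symm_apply_apply]
  · intro y
    apply hfX'
    rw [hF', hG', MulEquiv.apply_symm_apply]
  · intro x y
    apply hfX'
    rw [hF', map_mul, map_mul, map_mul, hF', hF']
  · apply hfX'
    change fl (F w) = fl (w' ^ e)
    rw [hF', h, map_zpow]

end Pool.Agent.H63.OR.WU
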