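import Pool.Agent.H5.OR.All
import Pool.Agent.H5.OR.Targets5

/-!
# Isomorphism problem for one-relator groups (MP_e1fd52_al): row MX
The final form of the theorem on several words.
-/

set_option autoImplicit false

open scoped Classical

namespace Pool.Agent.H63.OR.MX

open ORg

section Sum

variable {I : Type} {X Y : I → Type}

/-- the homomorphism given by homomorphisms of the summands -/
noncomputable def sF (α : ∀ i, FreeGroup (X i) →* FreeGroup (Y i)) :
    FreeGroup (Σ i, X i) →* FreeGroup ((Σ i, Y i) ⊕ Empty) :=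
  FreeGroup.lift fun p => FreeGroup.map (fun z => (Sum.inl ⟨p.1, z⟩ : (Σ i, Y i) ⊕ Empty))
    (α p.1 (FreeGroup.of p.2))

/-- the homomorphism in the other direction -/
noncomputable def sG (α : ∀ i, FreeGroup (Y i) →* FreeGroup (X i)) :
    FreeGroup ((Σ i, Y i) ⊕ Empty) →* FreeGroup (Σ i, X i) :=
  FreeGroup.lift fun s => match s with
    | Sum.inl p => FreeGroup.map (Sigma.mk p.1) (α p.1 (FreeGroup.of p.2))
    | Sum.inr e => e.elim

theorem sF_map (α : ∀ i, FreeGroup (X i) →* FreeGroup (Y i)) (i : I) (x : FreeGroup (X i)) :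
    sF α (FreeGroup.map (Sigma.mk i) x) =
      FreeGroup.map (fun z => (Sum.inl ⟨i, z⟩ : (Σ i, Y i) ⊕ Empty)) (α i x) := by
  have h : (sF α).comp (FreeGroup.map (Sigma.mk i)) =
      (FreeGroup.map (fun z => (Sum.inl ⟨i, z⟩ : (Σ i, Y i) ⊕ Empty))).comp (α i) := by
    apply FreeGroup.ext_hom
    intro a
    simp [sF]
  exact DFunLike.congr_fun h x

theorem sG_map (α : ∀ i, FreeGroup (Y i) →* FreeGroup (X i)) (i : I) (y : FreeGroup (Y i)) :
    sG α (FreeGroup.map (fun z => (Sum.inl ⟨i, z⟩ : (Σ i, Y i) ⊕ Empty)) y) =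
      FreeGroup.map (Sigma.mk i) (α i y) := by
  have h : (sG α).comp (FreeGroup.map (fun z => (Sum.inl ⟨i, z⟩ : (Σ i, Y i) ⊕ Empty))) =
      (FreeGroup.map (Sigma.mk i)).comp (α i) := by
    apply FreeGroup.ext_hom
    intro a
    simp [sG]
  exact DFunLike.congr_fun h y

/-- the isomorphism given by isomorphisms of the summands -/
theorem sE (α : ∀ i, FreeGroup (X i) ≃* FreeGroup (Y i)) :
    ∃ A : FreeGroup (Σ i, X i) ≃* FreeGroup ((Σ i, Y i) ⊕ Empty),
      ∀ (i : I) (x : FreeGroup (X i)), A (FreeGroup.map (Sigma.mk i) x) =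
        FreeGroup.map (fun z => (Sum.inl ⟨i, z⟩ : (Σ i, Y i) ⊕ Empty)) (α i x) := by
  let f := sF (fun i => (α i).toMonoidHom)
  let g := sG (fun i => (α i).symm.toMonoidHom)
  have hf : ∀ (i : I) (x : FreeGroup (X i)), f (FreeGroup.map (Sigma.mk i) x) =
      FreeGroup.map (fun z => (Sum.inl ⟨i, z⟩ : (Σ i, Y i) ⊕ Empty)) (α i x) :=
    fun i x => sF_map _ i x
  have hg : ∀ (i : I) (y : FreeGroup (Y i)),
      g (FreeGroup.map (fun z => (Sum.inl ⟨i, z⟩ : (Σ i, Y i) ⊕ Empty)) y) =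
      FreeGroup.map (Sigma.mk i) ((α i).symm y) := fun i y => sG_map _ i y
  have h1 : g.comp f = MonoidHom.id _ := by
    apply FreeGroup.ext_hom
    rintro ⟨i, x⟩
    have e1 : (FreeGroup.of (⟨i, x⟩ : Σ i, X i)) = FreeGroup.map (Sigma.mk i) (FreeGroup.of x) := by
      rw [FreeGroup.map.of]
    rw [MonoidHom.comp_apply, e1, hf, hg, MulEquiv.symm_apply_apply, MonoidHom.id_apply]
  have h2 : f.comp g = MonoidHom.id _ := by
    apply FreeGroup.ext_hom
    rintro (⟨i, y⟩ | e)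
    · have e1 : (FreeGroup.of (Sum.inl ⟨i, y⟩ : (Σ i, Y i) ⊕ Empty)) =
          FreeGroup.map (fun z => (Sum.inl ⟨i, z⟩ : (Σ i, Y i) ⊕ Empty)) (FreeGroup.of y) := by
        rw [FreeGroup.map.of]
      rw [MonoidHom.comp_apply, e1, hg, hf, MulEquiv.apply_symm_apply, MonoidHom.id_apply]
    · exact e.elim
  exact ⟨MonoidHom.toMulEquiv f g h1 h2, hf⟩

end Sum

/-- the free group on a disjoint union and one summand -/
theorem split {I : Type} {X : I → Type} (i : I) :
    ∃ E : FreeGroup (X i ⊕ {p : Σ i, X i // p.1 ≠ i}) ≃* FreeGroup (Σ i, X i),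
      ∀ x : FreeGroup (X i), E (fl x) = FreeGroup.map (Sigma.mk i) x := by
  let f : X i ⊕ {p : Σ i, X i // p.1 ≠ i} → Σ i, X i := Sum.elim (Sigma.mk i) Subtype.val
  have hf : Function.Bijective f := by
    constructor
    · rintro (a | a) (b | b) h
      · have h' : (⟨i, a⟩ : Σ i, X i) = ⟨i, b⟩ := h
        rw [Sigma.mk.injEq] at h'
        rw [eq_of_heq h'.2]
      · exact absurd (congrArg Sigma.fst (show (⟨i, a⟩ : Σ i, X i) = b.1 from h)).symm b.2
      · exact absurd (congrArg Sigma.fst (show a.1 = (⟨i, b⟩ : Σ i, X i) from h)) a.2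
      · have h' : a.1 = b.1 := h
        rw [Subtype.ext h']
    · rintro ⟨j, x⟩
      by_cases hj : j = i
      · subst hj
        exact ⟨Sum.inl x, rfl⟩
      · exact ⟨Sum.inr ⟨⟨j, x⟩, hj⟩, rfl⟩
  refine ⟨FreeGroup.freeGroupCongr (Equiv.ofBijective f hf), fun x => ?_⟩
  have h : (FreeGroup.freeGroupCongr (Equiv.ofBijective f hf)).toMonoidHom.comp
      (fl : FreeGroup (X i) →* FreeGroup (X i ⊕ {p : Σ i, X i // p.1 ≠ i})) =
      FreeGroup.map (Sigma.mk i) := by
    apply FreeGroup.ext_hom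
    intro a
    simp [f]
  exact DFunLike.congr_fun h x

theorem pf_MX (MW : T_MW) (MQ : T_MQ) (TG : T_TG) : T_MX := by
  intro I I' Y Y' _ _ _ _ X X' _ _ w w' R R' hw hw' hK hK' hI hI'
  rw [MW I I' Y Y' X X' w w' R R' hw hw' (All.KA.1 _ hK) (All.KA.1 _ hK') hI hI']
  constructor
  · rintro ⟨⟨eX⟩, σ, β, h⟩
    have h1 : ∀ i, ∃ e : ℤ, (e = 1 ∨ e = -1) ∧ StEq (w i) (w' (σ i) ^ e) ∧
        ∃ g : PresentedGroup R', β (PresentedGroup.of (Sum.inl i)) =
          g * PresentedGroup.of (Sum.inl (σ i)) ^ e * g⁻¹ := by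
      intro i
      obtain ⟨g, (⟨ha, hb⟩ | ⟨ha, hb⟩)⟩ := h i
      · exact ⟨1, Or.inl rfl, by rw [zpow_one]; exact ha, g, by rw [zpow_one]; exact hb⟩
      · exact ⟨-1, Or.inr rfl, by rw [zpow_neg_one]; exact ha, g, by rw [zpow_neg_one]; exact hb⟩
    choose e he hS hβ using h1
    choose X1 Z fX1 fZ α u hα hRu hWu hnt using fun i => All.WR (X i) (w i) (hw i).1 (hw i).2
    choose X1' Z' fX1' fZ' α' u' hα' hRu' hWu' hnt' using
      fun i => All.WR (X' i) (w' i) (hw' i).1 (hw' i).2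
    have h2 : ∀ i, ∃ γ : FreeGroup (X1 i) ≃* FreeGroup (X1' (σ i)),
        γ (u i) = u' (σ i) ^ e i := by
      intro i
      have := fX1 i
      have := fZ i
      have := fX1' (σ i)
      have := fZ' (σ i)
      have := hnt i
      have := hnt' (σ i)
      exact (MQ (X i) (X1 i) (Z i) (X' (σ i)) (X1' (σ i)) (Z' (σ i)) (w i) (w' (σ i)) (u i)
        (u' (σ i)) (α i) (α' (σ i)) (e i) (hRu i) (hWu i) (hRu' _) (hWu' _) (hα i) (hα' _)
        (he i)).1 (hS i)
    choose γ hγ using h2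
    have hZ : Nonempty ((Σ i, Z i) ≃ (Σ i, Z' i)) := by
      have := Fintype.ofFinite I
      have := Fintype.ofFinite I'
      have := fun i => fX1 i
      have := fun i => fZ i
      have := fun i => fX1' i
      have := fun i => fZ' i
      have c1 : ∀ i, Nat.card (X i) = Nat.card (X1 i) + Nat.card (Z i) := fun i => by
        rw [Nat.card_congr (Equiv.ofFreeGroupEquiv (α i)), Nat.card_sum]
      have c2 : ∀ i, Nat.card (X' i) = Nat.card (X1' i) + Nat.card (Z' i) := fun i => by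
        rw [Nat.card_congr (Equiv.ofFreeGroupEquiv (α' i)), Nat.card_sum]
      have c3 : ∀ i, Nat.card (X1 i) = Nat.card (X1' (σ i)) := fun i =>
        Nat.card_congr (Equiv.ofFreeGroupEquiv (γ i))
      have c4 : ∑ i, Nat.card (X i) = ∑ i, Nat.card (X' i) := by
        rw [← Nat.card_sigma, ← Nat.card_sigma]
        exact Nat.card_congr eX
      have c5 : ∑ i, Nat.card (X1 i) = ∑ j, Nat.card (X1' j) := by
        rw [← Equiv.sum_comp σ (fun j => Nat.card (X1' j))]
        exact Finset.sum_congr rfl fun i _ => c3 i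
      rw [← Finite.card_eq, Nat.card_sigma, Nat.card_sigma]
      have c6 : ∑ i, Nat.card (X i) = ∑ i, Nat.card (X1 i) + ∑ i, Nat.card (Z i) := by
        rw [← Finset.sum_add_distrib]
        exact Finset.sum_congr rfl fun i _ => c1 i
      have c7 : ∑ i, Nat.card (X' i) = ∑ i, Nat.card (X1' i) + ∑ i, Nat.card (Z' i) := by
        rw [← Finset.sum_add_distrib]
        exact Finset.sum_congr rfl fun i _ => c2 i
      omega
    obtain ⟨eZ⟩ := hZ
    obtain ⟨θ, hθ⟩ := TG I I' X1 Z X1' Z' σ γ eZ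
    obtain ⟨A, hA⟩ := sE α
    obtain ⟨A', hA'⟩ := sE α'
    refine ⟨σ, e, β, A.trans (θ.trans A'.symm), fun i => ⟨he i, hβ i, 1, ?_⟩⟩
    rw [one_mul, inv_one, mul_one, MulEquiv.trans_apply, MulEquiv.trans_apply,
      MulEquiv.symm_apply_eq, hA, hα, hθ, hγ, map_zpow A', hA', hα', map_zpow, map_zpow]
  · rintro ⟨σ, e, β, θ, h⟩
    refine ⟨⟨Equiv.ofFreeGroupEquiv θ⟩, σ, β, fun i => ?_⟩
    obtain ⟨he, ⟨g, hg⟩, g', hg'⟩ := h i
    have hS : StEq (w i) (w' (σ i) ^ e i) := by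
      obtain ⟨E, hE⟩ := split (X := X) i
      obtain ⟨E', hE'⟩ := split (X := X') (σ i)
      refine ⟨_, _, inferInstance, inferInstance,
        E.trans (θ.trans ((MulAut.conj g'⁻¹).trans E'.symm)), ?_⟩
      rw [MulEquiv.trans_apply, MulEquiv.trans_apply, MulEquiv.trans_apply,
        MulEquiv.symm_apply_eq, hE, hg', hE', MulAut.conj_apply, map_zpow]
      group
    refine ⟨g, ?_⟩
    rcases he with he | he
    · left
      rw [he, zpow_one] at hS hg
      exact ⟨hS, hg⟩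
    · right
      rw [he, zpow_neg_one] at hS hg
      exact ⟨hS, hg⟩

end Pool.Agent.H63.OR.MX
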